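import Mathlib

set_option autoImplicit false

open Cardinal

namespace Pool.Agent.LibInt99

/-- one closure step -/
def stepSet {V : Type} (F : ℕ → V → V → V) (S : Set V) : Set V :=
  S ∪ ⋃ i, Set.image2 (F i) S S

/-- closure -/
def cl {V : Type} (F : ℕ → V → V → V) (S : Set V) : Set V := ⋃ n : ℕ, (stepSet F)^[n] S

theorem iter_mono {V : Type} (F : ℕ → V → V → V) (S : Set V) :
    Monotone (fun n : ℕ => (stepSet F)^[n] S) := by
  apply monotone_nat_of_le_succ
  intro n
  simp only [Function.iterate_succ_apply']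
  exact Set.subset_union_left

theorem iter_mono_set {V : Type} (F : ℕ → V → V → V) {S T : Set V} (h : S ⊆ T) (n : ℕ) :
    (stepSet F)^[n] S ⊆ (stepSet F)^[n] T := by
  induction n with
  | zero => simpa using h
  | succ n ih =>
    simp only [Function.iterate_succ_apply']
    unfold stepSet
    refine Set.union_subset_union ih ?_
    exact Set.iUnion_mono (fun i => Set.image2_subset ih ih)

theorem cl_mono {V : Type} (F : ℕ → V → V → V) {S T : Set V} (h : S ⊆ T) : cl F S ⊆ cl F T :=
  Set.iUnion_mono (fun n => iter_mono_set F h n)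

theorem subset_cl {V : Type} (F : ℕ → V → V → V) (S : Set V) : S ⊆ cl F S := by
  intro x hx
  exact Set.mem_iUnion.2 ⟨0, by simpa using hx⟩

theorem cl_closed {V : Type} (F : ℕ → V → V → V) (S : Set V) (i : ℕ) {p q : V}
    (hp : p ∈ cl F S) (hq : q ∈ cl F S) : F i p q ∈ cl F S := by
  obtain ⟨n, hn⟩ := Set.mem_iUnion.1 hp
  obtain ⟨m, hm⟩ := Set.mem_iUnion.1 hq
  have h1 := iter_mono F S (le_max_left n m) hn
  have h2 := iter_mono F S (le_max_right n m) hm
  refine Set.mem_iUnion.2 ⟨max n m + 1, ?_⟩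
  rw [Function.iterate_succ_apply']
  exact Or.inr (Set.mem_iUnion.2 ⟨i, Set.mem_image2_of_mem h1 h2⟩)

theorem mk_step {V : Type} (F : ℕ → V → V → V) (S : Set V) (μ : Cardinal.{0}) (hμ : ℵ₀ ≤ μ)
    (h : #S ≤ μ) : #(stepSet F S) ≤ μ := by
  unfold stepSet
  refine (Cardinal.mk_union_le _ _).trans ?_
  have h1 : ∀ i, #(Set.image2 (F i) S S) ≤ μ := by
    intro i
    refine (Cardinal.mk_image2_le).trans ?_
    exact (mul_le_mul' h h).trans (Cardinal.mul_eq_self hμ).le
  have h2 : #(⋃ i, Set.image2 (F i) S S) ≤ μ := by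
    refine (Cardinal.mk_iUnion_le _).trans ?_
    have h3 : (⨆ i, #(Set.image2 (F i) S S)) ≤ μ := ciSup_le' h1
    calc #ℕ * (⨆ i, #(Set.image2 (F i) S S)) ≤ μ * μ := by
          refine mul_le_mul' ?_ h3
          rw [Cardinal.mk_nat]
          exact hμ
      _ = μ := Cardinal.mul_eq_self hμ
  exact (add_le_add h h2).trans (Cardinal.add_eq_self hμ).le

theorem mk_cl {V : Type} (F : ℕ → V → V → V) (S : Set V) : #(cl F S) ≤ max #S ℵ₀ := by
  have hμ : ℵ₀ ≤ max #S ℵ₀ := le_max_right _ _
  have h1 : ∀ n : ℕ, #((stepSet F)^[n] S : Set V) ≤ max #S ℵ₀ := by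
    intro n
    induction n with
    | zero => exact le_max_left _ _
    | succ n ih =>
      rw [Function.iterate_succ_apply']
      exact mk_step F _ _ hμ ih
  unfold cl
  refine (Cardinal.mk_iUnion_le _).trans ?_
  calc #ℕ * (⨆ n : ℕ, #((stepSet F)^[n] S : Set V)) ≤ max #S ℵ₀ * max #S ℵ₀ := by
        refine mul_le_mul' ?_ (ciSup_le' h1)
        rw [Cardinal.mk_nat]
        exact hμ
    _ = max #S ℵ₀ := Cardinal.mul_eq_self hμ

/-- Level functions: small fibres and closed under the given functions. -/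
theorem exists_level {V : Type} (F : ℕ → V → V → V) (h : ℵ₀ < #V) :
    ∃ lam : V → (#V).ord.ToType, (∀ a, #{v // lam v = a} < #V) ∧
      ∀ i p q, lam (F i p q) ≤ max (lam p) (lam q) := by
  classical
  have he : #V = #(#V).ord.ToType := (Cardinal.mk_ord_toType _).symm
  obtain ⟨e⟩ := Cardinal.eq.1 he
  let B : (#V).ord.ToType → Set V := fun a => cl F {u | e u ≤ a}
  have hB : ∀ a b, a ≤ b → B a ⊆ B b := by
    intro a b hab
    exact cl_mono F (fun u hu => le_trans hu hab)
  have hmem : ∀ v, v ∈ B (e v) := fun v => subset_cl F _ (le_refl (e v))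
  have hne : ∀ v, {a | v ∈ B a}.Nonempty := fun v => ⟨e v, hmem v⟩
  let lam : V → (#V).ord.ToType := fun v => wellFounded_lt.min {a | v ∈ B a} (hne v)
  have h1 : ∀ v, v ∈ B (lam v) := fun v => wellFounded_lt.min_mem {a | v ∈ B a} (hne v)
  have h2 : ∀ v a, v ∈ B a → lam v ≤ a := fun v a hv =>
    not_lt.1 (wellFounded_lt.not_lt_min {a | v ∈ B a} hv)
  refine ⟨lam, ?_, ?_⟩
  · intro a
    have hsub : {v | lam v = a} ⊆ B a := by
      intro v hv
      have := h1 v
      rw [show lam v = a from hv] at this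
      exact this
    have h3 : #{v // lam v = a} ≤ #(B a) := Cardinal.mk_le_mk_of_subset hsub
    refine lt_of_le_of_lt h3 (lt_of_le_of_lt (mk_cl F _) ?_)
    refine max_lt ?_ h
    have h4 : #{u | e u ≤ a} = #(Set.Iic a) := by
      refine Cardinal.mk_congr ?_
      exact e.subtypeEquiv (fun u => Iff.rfl)
    rw [h4]
    have h5 : (Set.Iic a) ⊆ Set.Iio a ∪ {a} := by
      intro b hb
      rcases lt_or_eq_of_le (show b ≤ a from hb) with hb | hb
      · exact Or.inl hb
      · exact Or.inr hb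
    refine lt_of_le_of_lt (Cardinal.mk_le_mk_of_subset h5) ?_
    refine lt_of_le_of_lt (Cardinal.mk_union_le _ _) ?_
    refine Cardinal.add_lt_of_lt h.le (Cardinal.mk_Iio_toType_ord_lt a) ?_
    rw [Cardinal.mk_singleton]
    exact lt_trans Cardinal.one_lt_aleph0 h
  · intro i p q
    apply h2
    exact cl_closed F _ i (hB _ _ (le_max_left _ _) (h1 p)) (hB _ _ (le_max_right _ _) (h1 q))

end Pool.Agent.LibInt99
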