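import Mathlib

set_option autoImplicit false

namespace Pool.Agent.LibInt99

universe u v

/-- Property (R) of a relation `r x v` (an arc from `x` to `v`). -/
def PR {V : Type u} (r : V → V → Prop) : Prop :=
  ∀ v₁ v₂ x₁ x₁' x₂ x₂' w y : V, r x₁ v₁ → r x₁' v₁ → x₁ ≠ x₁' → r x₂ v₂ → r x₂' v₂ → x₂ ≠ x₂' →
    r w x₁ → r w x₂ → r y x₁' → r y x₂' → x₁ = x₂ ∨ x₁' = x₂'

/-- Property (Q) of a relation. -/
def PQ {V : Type u} (r : V → V → Prop) : Prop :=
  ∀ v₁ v₂ x x₁' x₂' y₁ y₂ z : V, r x v₁ → r x v₂ → r x₁' v₁ → r x₂' v₂ → x₁' ≠ x → x₂' ≠ x →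
    r y₁ x₁' → r y₂ x₂' → r z y₁ → r z y₂ → y₁ = y₂

/-- `r` is an orientation of the graph `G`. -/
def Ori {V : Type u} (G : SimpleGraph V) (r : V → V → Prop) : Prop :=
  (∀ x y, r x y → ¬ r y x) ∧ ∀ x y, G.Adj x y ↔ r x y ∨ r y x

/-- Graphs with an orientation satisfying (R) and its reversed form. -/
def A1 {V : Type u} (G : SimpleGraph V) : Prop :=
  ∃ r : V → V → Prop, Ori G r ∧ PR r ∧ PR (fun x y => r y x)

/-- Graphs with an orientation satisfying (Q) and its reversed form. -/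
def A2 {V : Type u} (G : SimpleGraph V) : Prop :=
  ∃ r : V → V → Prop, Ori G r ∧ PQ r ∧ PQ (fun x y => r y x)

theorem PR.mono {V : Type u} {W : Type v} {r : V → V → Prop} (h : PR r) (f : W → V)
    (hf : Function.Injective f) (s : W → W → Prop) (hs : ∀ a b, s a b → r (f a) (f b)) : PR s := by
  intro v₁ v₂ x₁ x₁' x₂ x₂' w y h1 h2 h3 h4 h5 h6 h7 h8 h9 h10
  rcases h (f v₁) (f v₂) (f x₁) (f x₁') (f x₂) (f x₂') (f w) (f y) (hs _ _ h1) (hs _ _ h2)
    (fun e => h3 (hf e)) (hs _ _ h4) (hs _ _ h5) (fun e => h6 (hf e)) (hs _ _ h7) (hs _ _ h8)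
    (hs _ _ h9) (hs _ _ h10) with e | e
  · exact Or.inl (hf e)
  · exact Or.inr (hf e)

theorem PQ.mono {V : Type u} {W : Type v} {r : V → V → Prop} (h : PQ r) (f : W → V)
    (hf : Function.Injective f) (s : W → W → Prop) (hs : ∀ a b, s a b → r (f a) (f b)) : PQ s := by
  intro v₁ v₂ x x₁' x₂' y₁ y₂ z h1 h2 h3 h4 h5 h6 h7 h8 h9 h10
  exact hf (h (f v₁) (f v₂) (f x) (f x₁') (f x₂') (f y₁) (f y₂) (f z) (hs _ _ h1) (hs _ _ h2)
    (hs _ _ h3) (hs _ _ h4) (fun e => h5 (hf e)) (fun e => h6 (hf e)) (hs _ _ h7) (hs _ _ h8)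
    (hs _ _ h9) (hs _ _ h10))

/-- the class is closed under subgraphs -/
theorem A1.sub {V : Type u} {W : Type v} {G : SimpleGraph V} (h : A1 G) (F : SimpleGraph W)
    (f : F →g G) (hf : Function.Injective f) : A1 F := by
  obtain ⟨r, ⟨ho1, ho2⟩, h1, h2⟩ := h
  refine ⟨fun a b => F.Adj a b ∧ r (f a) (f b), ⟨?_, ?_⟩, ?_, ?_⟩
  · rintro x y ⟨_, hxy⟩ ⟨_, hyx⟩
    exact ho1 _ _ hxy hyx
  · intro x y
    constructor
    · intro hxy
      rcases (ho2 _ _).1 (f.map_adj hxy) with hh | hh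
      · exact Or.inl ⟨hxy, hh⟩
      · exact Or.inr ⟨hxy.symm, hh⟩
    · rintro (hh | hh)
      · exact hh.1
      · exact hh.1.symm
  · exact h1.mono f hf _ (fun a b hab => hab.2)
  · exact h2.mono f hf _ (fun a b hab => hab.2)

theorem A2.sub {V : Type u} {W : Type v} {G : SimpleGraph V} (h : A2 G) (F : SimpleGraph W)
    (f : F →g G) (hf : Function.Injective f) : A2 F := by
  obtain ⟨r, ⟨ho1, ho2⟩, h1, h2⟩ := h
  refine ⟨fun a b => F.Adj a b ∧ r (f a) (f b), ⟨?_, ?_⟩, ?_, ?_⟩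
  · rintro x y ⟨_, hxy⟩ ⟨_, hyx⟩
    exact ho1 _ _ hxy hyx
  · intro x y
    constructor
    · intro hxy
      rcases (ho2 _ _).1 (f.map_adj hxy) with hh | hh
      · exact Or.inl ⟨hxy, hh⟩
      · exact Or.inr ⟨hxy.symm, hh⟩
    · rintro (hh | hh)
      · exact hh.1
      · exact hh.1.symm
  · exact h1.mono f hf _ (fun a b hab => hab.2)
  · exact h2.mono f hf _ (fun a b hab => hab.2)

/-- Transfer of finite information: orientations of the finite pieces. -/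
theorem compact_aux {V : Type u} (G : SimpleGraph V) (R : Finset V → V → V → Prop)
    (h1 : ∀ s x y, R s x y → ¬ R s y x) (h2 : ∀ s x y, R s x y → G.Adj x y)
    (h3 : ∀ s, ∀ x ∈ s, ∀ y ∈ s, G.Adj x y → R s x y ∨ R s y x) :
    ∃ (U : Ultrafilter (Finset V)), Ori G (fun x y => ∀ᶠ s in U, R s x y) := by
  classical
  let U : Ultrafilter (Finset V) := Ultrafilter.of Filter.atTop
  have hU : (U : Filter (Finset V)) ≤ Filter.atTop := Ultrafilter.of_le _
  refine ⟨U, ?_, ?_⟩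
  · intro x y hxy hyx
    obtain ⟨s, hs1, hs2⟩ := (hxy.and hyx).exists
    exact h1 s x y hs1 hs2
  · intro x y
    constructor
    · intro hxy
      have hev : ∀ᶠ s in (U : Filter (Finset V)), R s x y ∨ R s y x := by
        have h4 : ∀ᶠ s in (U : Filter (Finset V)), ({x, y} : Finset V) ≤ s :=
          hU (Filter.eventually_ge_atTop _)
        filter_upwards [h4] with s hs
        exact h3 s x (hs (by simp)) y (hs (by simp)) hxy
      exact Ultrafilter.eventually_or.1 hev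
    · rintro (hh | hh)
      · obtain ⟨s, hs⟩ := hh.exists
        exact h2 s x y hs
      · obtain ⟨s, hs⟩ := hh.exists
        exact (h2 s y x hs).symm

theorem PR.ultra {V : Type u} {I : Type v} (U : Ultrafilter I) (R : I → V → V → Prop)
    (h : ∀ i, PR (R i)) : PR (fun x y => ∀ᶠ s in (U : Filter I), R s x y) := by
  intro v₁ v₂ x₁ x₁' x₂ x₂' w y h1 h2 h3 h4 h5 h6 h7 h8 h9 h10
  obtain ⟨s, g1, g2, g3, g4, g5, g6, g7, g8⟩ :=
    (h1.and (h2.and (h4.and (h5.and (h7.and (h8.and (h9.and h10))))))).exists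
  exact h s v₁ v₂ x₁ x₁' x₂ x₂' w y g1 g2 h3 g3 g4 h6 g5 g6 g7 g8

theorem PQ.ultra {V : Type u} {I : Type v} (U : Ultrafilter I) (R : I → V → V → Prop)
    (h : ∀ i, PQ (R i)) : PQ (fun x y => ∀ᶠ s in (U : Filter I), R s x y) := by
  intro v₁ v₂ x x₁' x₂' y₁ y₂ z h1 h2 h3 h4 h5 h6 h7 h8 h9 h10
  obtain ⟨s, g1, g2, g3, g4, g5, g6, g7, g8⟩ :=
    (h1.and (h2.and (h3.and (h4.and (h7.and (h8.and (h9.and h10))))))).exists
  exact h s v₁ v₂ x x₁' x₂' y₁ y₂ z g1 g2 g3 g4 h5 h6 g5 g6 g7 g8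

/-- The finite induced subgraph on `s`, transported to `Fin`. -/
noncomputable def pt {V : Type u} (s : Finset V) : Fin s.card → V := fun i => (s.equivFin.symm i).1

theorem pt_inj {V : Type u} (s : Finset V) : Function.Injective (pt s) := by
  intro i j h
  exact s.equivFin.symm.injective (Subtype.ext h)

theorem pt_surj {V : Type u} (s : Finset V) (x : V) (hx : x ∈ s) : ∃ i, pt s i = x :=
  ⟨s.equivFin ⟨x, hx⟩, by simp [pt]⟩

/-- The graph induced on `s`. -/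
noncomputable def gph {V : Type u} (G : SimpleGraph V) (s : Finset V) : SimpleGraph (Fin s.card) :=
  G.comap (pt s)

/-- the relation on `V` obtained from one on `Fin s.card` -/
def push {V : Type u} (s : Finset V) (r : Fin s.card → Fin s.card → Prop) (x y : V) : Prop :=
  ∃ i j, pt s i = x ∧ pt s j = y ∧ r i j

theorem push_iff {V : Type u} (s : Finset V) (r : Fin s.card → Fin s.card → Prop) (i j) :
    push s r (pt s i) (pt s j) ↔ r i j := by
  constructor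
  · rintro ⟨i', j', hi, hj, h⟩
    rw [← pt_inj s hi, ← pt_inj s hj]
    exact h
  · intro h
    exact ⟨i, j, rfl, rfl, h⟩

theorem PR.push {V : Type u} (s : Finset V) (r : Fin s.card → Fin s.card → Prop) (h : PR r) :
    PR (push s r) := by
  rintro v₁ v₂ x₁ x₁' x₂ x₂' w y ⟨i1, j1, rfl, rfl, h1⟩ ⟨i2, j2, rfl, hj2, h2⟩ h3
    ⟨i4, j4, rfl, rfl, h4⟩ ⟨i5, j5, rfl, hj5, h5⟩ h6 ⟨i7, j7, rfl, hj7, h7⟩ ⟨i8, j8, hi8, hj8, h8⟩
    ⟨i9, j9, rfl, hj9, h9⟩ ⟨i10, j10, hi10, hj10, h10⟩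
  have e2 := pt_inj s hj2
  have e5 := pt_inj s hj5
  have e7 := pt_inj s hj7
  have e8 := pt_inj s hj8
  have e8' := pt_inj s hi8
  have e9 := pt_inj s hj9
  have e10 := pt_inj s hj10
  have e10' := pt_inj s hi10
  subst e2 e5 e7 e8 e8' e9 e10 e10'
  rcases h _ _ _ _ _ _ _ _ h1 h2 (fun e => h3 (by rw [e])) h4 h5 (fun e => h6 (by rw [e]))
    h7 h8 h9 h10 with e | e
  · exact Or.inl (by rw [e])
  · exact Or.inr (by rw [e])

theorem PQ.push {V : Type u} (s : Finset V) (r : Fin s.card → Fin s.card → Prop) (h : PQ r) :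
    PQ (push s r) := by
  rintro v₁ v₂ x x₁' x₂' y₁ y₂ z ⟨i1, j1, rfl, rfl, h1⟩ ⟨i2, j2, hi2, rfl, h2⟩
    ⟨i3, j3, rfl, hj3, h3⟩ ⟨i4, j4, rfl, hj4, h4⟩ h5 h6 ⟨i7, j7, rfl, hj7, h7⟩
    ⟨i8, j8, rfl, hj8, h8⟩ ⟨i9, j9, rfl, hj9, h9⟩ ⟨i10, j10, hi10, hj10, h10⟩
  have e2 := pt_inj s hi2
  have e3 := pt_inj s hj3
  have e4 := pt_inj s hj4
  have e7 := pt_inj s hj7
  have e8 := pt_inj s hj8
  have e9 := pt_inj s hj9
  have e10 := pt_inj s hj10
  have e10' := pt_inj s hi10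
  subst e2 e3 e4 e7 e8 e9 e10 e10'
  exact congrArg (pt s) (h _ _ _ _ _ _ _ _ h1 h2 h3 h4 (fun e => h5 (by rw [e]))
    (fun e => h6 (by rw [e])) h7 h8 h9 h10)

theorem PR.push_rev {V : Type u} (s : Finset V) (r : Fin s.card → Fin s.card → Prop)
    (h : PR (fun x y => r y x)) : PR (fun x y => LibInt99.push s r y x) := by
  have h' := PR.push s _ h
  refine h'.mono id Function.injective_id _ ?_
  rintro a b ⟨i, j, hi, hj, hr⟩
  exact ⟨j, i, hj, hi, hr⟩

theorem PQ.push_rev {V : Type u} (s : Finset V) (r : Fin s.card → Fin s.card → Prop)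
    (h : PQ (fun x y => r y x)) : PQ (fun x y => LibInt99.push s r y x) := by
  have h' := PQ.push s _ h
  refine h'.mono id Function.injective_id _ ?_
  rintro a b ⟨i, j, hi, hj, hr⟩
  exact ⟨j, i, hj, hi, hr⟩

theorem push_ori {V : Type u} (G : SimpleGraph V) (s : Finset V)
    (r : Fin s.card → Fin s.card → Prop) (h : Ori (gph G s) r) :
    (∀ x y, push s r x y → ¬ push s r y x) ∧ (∀ x y, push s r x y → G.Adj x y) ∧
      (∀ x ∈ s, ∀ y ∈ s, G.Adj x y → push s r x y ∨ push s r y x) := by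
  obtain ⟨h1, h2⟩ := h
  refine ⟨?_, ?_, ?_⟩
  · rintro x y ⟨i, j, rfl, rfl, hr⟩ hr'
    rw [push_iff] at hr'
    exact h1 i j hr hr'
  · rintro x y ⟨i, j, rfl, rfl, hr⟩
    exact (h2 i j).2 (Or.inl hr)
  · intro x hx y hy hxy
    obtain ⟨i, rfl⟩ := pt_surj s x hx
    obtain ⟨j, rfl⟩ := pt_surj s y hy
    rw [push_iff, push_iff]
    exact (h2 i j).1 hxy

/-- Compactness for `A1`. -/
theorem A1.compact {V : Type u} (G : SimpleGraph V) (h : ∀ s : Finset V, A1 (gph G s)) : A1 G := by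
  choose r ho h1 h2 using h
  obtain ⟨U, hU⟩ := compact_aux G (fun s => push s (r s))
    (fun s => (push_ori G s (r s) (ho s)).1) (fun s => (push_ori G s (r s) (ho s)).2.1)
    (fun s => (push_ori G s (r s) (ho s)).2.2)
  refine ⟨_, hU, ?_, ?_⟩
  · exact PR.ultra U (fun s => push s (r s)) (fun s => PR.push s _ (h1 s))
  · exact PR.ultra U (fun s x y => push s (r s) y x) (fun s => PR.push_rev s _ (h2 s))

/-- Compactness for `A2`. -/
theorem A2.compact {V : Type u} (G : SimpleGraph V) (h : ∀ s : Finset V, A2 (gph G s)) : A2 G := by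
  choose r ho h1 h2 using h
  obtain ⟨U, hU⟩ := compact_aux G (fun s => push s (r s))
    (fun s => (push_ori G s (r s) (ho s)).1) (fun s => (push_ori G s (r s) (ho s)).2.1)
    (fun s => (push_ori G s (r s) (ho s)).2.2)
  refine ⟨_, hU, ?_, ?_⟩
  · exact PQ.ultra U (fun s => push s (r s)) (fun s => PQ.push s _ (h1 s))
  · exact PQ.ultra U (fun s x y => push s (r s) y x) (fun s => PQ.push_rev s _ (h2 s))

end Pool.Agent.LibInt99
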