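import Mathlib
import Pool.Agent.LibInt99.Defs

set_option autoImplicit false

namespace Pool.Agent.LibInt99

universe u v

/-- Greedy colouring with three colours. -/
theorem greedy2 {V : Type u} (E : V → V → Prop) (wf : WellFounded E)
    (h : ∀ v, ∃ a b, ∀ x, E x v → x = a ∨ x = b) :
    ∃ c : V → Fin 3, ∀ x v, E x v → c x ≠ c v := by
  classical
  let c : V → Fin 3 := wf.fix (fun v rec =>
    if hk : ∃ k : Fin 3, ∀ y (hy : E y v), rec y hy ≠ k then hk.choose else 0)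
  have hc : ∀ v, c v = if hk : ∃ k : Fin 3, ∀ y (_ : E y v), c y ≠ k then hk.choose else 0 := by
    intro v
    exact wf.fix_eq _ v
  refine ⟨c, ?_⟩
  intro x v hxv
  have hex : ∃ k : Fin 3, ∀ y (_ : E y v), c y ≠ k := by
    obtain ⟨a, b, hab⟩ := h v
    have h3 : ∀ p q : Fin 3, ∃ k : Fin 3, p ≠ k ∧ q ≠ k := by decide
    obtain ⟨k, hk1, hk2⟩ := h3 (c a) (c b)
    refine ⟨k, ?_⟩
    intro y hy
    rcases hab y hy with e | e
    · rw [e]; exact hk1
    · rw [e]; exact hk2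
  rw [hc v, dif_pos hex]
  exact hex.choose_spec x hxv

section Up

variable {V : Type u} {I : Type v} [LinearOrder I] [WellFoundedLT I] (r : V → V → Prop)
  (lam : V → I)

/-- `x` is an up-child of `v` -/
def UC (x v : V) : Prop := r x v ∧ lam x < lam v

/-- `v` has an up-child -/
def HW (v : V) : Prop := ∃ x, UC r lam x v

/-- `v` has an up-child which has an up-child -/
def HW1 (v : V) : Prop := ∃ x, HW r lam x ∧ UC r lam x v

/-- witness condition for (R) -/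
def WitR : Prop := ∀ v x x' w y, r x v → r x' v → x ≠ x' → r w x → r y x' →
  ∃ v₀ x₀ x₀', r x₀ v₀ ∧ r x₀' v₀ ∧ x₀ ≠ x₀' ∧ r w x₀ ∧ r y x₀' ∧
    lam x₀ ≤ max (lam w) (lam y) ∧ lam x₀' ≤ max (lam w) (lam y)

/-- witness condition for (Q) -/
def WitQ : Prop := ∀ v x x' y z, r x v → r x' v → x' ≠ x → r y x' → r z y →
  lam y ≤ max (lam x) (lam z)

omit [WellFoundedLT I] in
theorem claim1 (hR : PR r) (hW : WitR r lam) (v x x' y : V) (hx : UC r lam x v)
    (hxW : HW r lam x) (hx' : UC r lam x' v) (hne : x ≠ x') (hle : lam x ≤ lam x')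
    (hy : UC r lam y x') : lam x ≤ lam y := by
  by_contra hlt
  rw [not_le] at hlt
  obtain ⟨w, hw1, hw2⟩ := hxW
  obtain ⟨v₀, x₀, x₀', g1, g2, g3, g4, g5, g6, g7⟩ := hW v x x' w y hx.1 hx'.1 hne hw1 hy.1
  have hm : max (lam w) (lam y) < lam x := max_lt hw2 hlt
  rcases hR v v₀ x x' x₀ x₀' w y hx.1 hx'.1 hne g1 g2 g3 hw1 g4 hy.1 g5 with e | e
  · subst e
    exact absurd (lt_of_le_of_lt g6 hm) (lt_irrefl _)
  · subst e
    exact absurd (lt_of_le_of_lt g7 hm) (not_lt.2 hle)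

omit [WellFoundedLT I] in
theorem claim2 (hR : PR r) (hW : WitR r lam) (hQ : WitQ r lam) (v x₀ x₁ x y : V)
    (h0 : UC r lam x₀ v) (h0W : HW r lam x₀) (h1 : UC r lam x₁ v) (h1W : HW r lam x₁)
    (hx : UC r lam x v) (h01 : x₀ ≠ x₁) (h0x : x₀ ≠ x) (h1x : x₁ ≠ x)
    (hle0 : lam x₀ ≤ lam x₁) (hle1 : lam x₁ ≤ lam x) (hy : UC r lam y x) (hyW : HW r lam y) :
    False := by
  have e1 : lam x₁ ≤ lam y := claim1 r lam hR hW v x₁ x y h1 h1W hx h1x hle1 hy
  have e0 : lam x₀ < lam x₁ := by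
    obtain ⟨w, hw⟩ := h1W
    have := claim1 r lam hR hW v x₀ x₁ w h0 h0W h1 h01 hle0 hw
    exact lt_of_le_of_lt this hw.2
  obtain ⟨z, hz⟩ := hyW
  have e2 := hQ v x₀ x y z h0.1 hx.1 h0x.symm hy.1 hz.1
  have e3 : max (lam x₀) (lam z) < lam y := max_lt (lt_of_lt_of_le e0 e1) hz.2
  exact absurd (lt_of_le_of_lt e2 e3) (lt_irrefl _)

theorem two_preds (hR : PR r) (hW : WitR r lam) (hQ : WitQ r lam) (v : V) :
    ∃ a b, ∀ x, (UC r lam x v ∧ HW1 r lam x) → x = a ∨ x = b := by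
  classical
  let C : Set V := {x | UC r lam x v ∧ HW r lam x}
  have hCW : ∀ x, (UC r lam x v ∧ HW1 r lam x) → x ∈ C := by
    rintro x ⟨h1, y, _, hy2⟩
    exact ⟨h1, y, hy2⟩
  have wf : WellFounded (InvImage (· < ·) lam) := InvImage.wf lam wellFounded_lt
  by_cases hC : C.Nonempty
  swap
  · refine ⟨v, v, ?_⟩
    intro x hx
    exact absurd ⟨x, hCW x hx⟩ hC
  obtain ⟨x₀, hx₀, hm₀⟩ := wf.has_min C hC
  by_cases hC' : (C \ {x₀}).Nonempty
  swap
  · refine ⟨x₀, x₀, ?_⟩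
    intro x hx
    by_contra hne
    push Not at hne
    exact hC' ⟨x, hCW x hx, hne.1⟩
  obtain ⟨x₁, hx₁, hm₁⟩ := wf.has_min (C \ {x₀}) hC'
  refine ⟨x₀, x₁, ?_⟩
  intro x hx
  by_contra hne
  push Not at hne
  have hxC := hCW x hx
  have hle0 : lam x₀ ≤ lam x₁ := not_lt.1 (hm₀ x₁ hx₁.1)
  have hle1 : lam x₁ ≤ lam x := not_lt.1 (hm₁ x ⟨hxC, hne.1⟩)
  obtain ⟨y, hyW, hy⟩ := hx.2
  exact claim2 r lam hR hW hQ v x₀ x₁ x y hx₀.1 hx₀.2 hx₁.1.1 hx₁.1.2 hx.1
    (fun e => hx₁.2 e.symm) hne.1.symm hne.2.symm hle0 hle1 hy hyW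

/-- Five colours for the up-edges. -/
theorem up_colouring (hR : PR r) (hW : WitR r lam) (hQ : WitQ r lam) :
    ∃ c : V → ℕ, ∀ x v, r x v → lam x < lam v → c x ≠ c v := by
  classical
  have wf : WellFounded (fun x v => UC r lam x v ∧ HW1 r lam x ∧ HW1 r lam v) :=
    Subrelation.wf (r := InvImage (· < ·) lam) (fun {x v} h => h.1.2)
      (InvImage.wf lam wellFounded_lt)
  obtain ⟨c₀, hc₀⟩ := greedy2 _ wf (fun v => by
    obtain ⟨a, b, hab⟩ := two_preds r lam hR hW hQ v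
    exact ⟨a, b, fun x hx => hab x ⟨hx.1, hx.2.1⟩⟩)
  refine ⟨fun v => if HW1 r lam v then (c₀ v).1 else if HW r lam v then 3 else 4, ?_⟩
  intro x v hr hl
  have hvW : HW r lam v := ⟨x, hr, hl⟩
  have hlt : ∀ u, (c₀ u).1 < 3 := fun u => (c₀ u).2
  have hx3 := hlt x
  have hv3 := hlt v
  by_cases hx1 : HW1 r lam x
  · by_cases hv1 : HW1 r lam v
    · simp only [hx1, hv1, if_true]
      intro e
      exact hc₀ x v ⟨⟨hr, hl⟩, hx1, hv1⟩ (Fin.ext e)
    · simp only [hx1, hv1, if_true, if_false, hvW]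
      omega
  · by_cases hv1 : HW1 r lam v
    · by_cases hxW : HW r lam x
      · simp only [hx1, hv1, if_true, if_false, hxW]
        omega
      · simp only [hx1, hv1, if_true, if_false, hxW]
        omega
    · by_cases hxW : HW r lam x
      · exact absurd ⟨x, hxW, hr, hl⟩ hv1
      · simp only [hx1, hv1, if_true, if_false, hxW, hvW]
        omega

end Up

end Pool.Agent.LibInt99
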