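import Mathlib
import Pool.Agent.LibInt99.Up
import Pool.Agent.LibInt99.Level

set_option autoImplicit false

open Cardinal

namespace Pool.Agent.LibInt99

/-- Witness functions for (R). -/
theorem exists_witR {V : Type} (r : V → V → Prop) :
    ∃ W₁ W₂ : V → V → V, ∀ v x x' w y, r x v → r x' v → x ≠ x' → r w x → r y x' →
      ∃ v₀, r (W₁ w y) v₀ ∧ r (W₂ w y) v₀ ∧ W₁ w y ≠ W₂ w y ∧ r w (W₁ w y) ∧ r y (W₂ w y) := by
  classical
  have h : ∀ w y : V, ∃ a b : V,
      (∃ v x x', r x v ∧ r x' v ∧ x ≠ x' ∧ r w x ∧ r y x') →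
      ∃ v₀, r a v₀ ∧ r b v₀ ∧ a ≠ b ∧ r w a ∧ r y b := by
    intro w y
    by_cases hh : ∃ v x x', r x v ∧ r x' v ∧ x ≠ x' ∧ r w x ∧ r y x'
    · obtain ⟨v, x, x', h'⟩ := hh
      exact ⟨x, x', fun _ => ⟨v, h'⟩⟩
    · exact ⟨w, w, fun h' => absurd h' hh⟩
  choose W₁ W₂ hW using h
  refine ⟨W₁, W₂, ?_⟩
  intro v x x' w y h1 h2 h3 h4 h5
  exact hW w y ⟨v, x, x', h1, h2, h3, h4, h5⟩

/-- Witness function for (Q). -/
theorem exists_witQ {V : Type} (r : V → V → Prop) (hQ : PQ r) :
    ∃ Y : V → V → V, ∀ v x x' y z, r x v → r x' v → x' ≠ x → r y x' → r z y → y = Y x z := by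
  classical
  have h : ∀ x z : V, ∃ y₀ : V, ∀ v x' y, r x v → r x' v → x' ≠ x → r y x' → r z y → y = y₀ := by
    intro x z
    by_cases hh : ∃ v x' y, r x v ∧ r x' v ∧ x' ≠ x ∧ r y x' ∧ r z y
    · obtain ⟨v, x', y, h1, h2, h3, h4, h5⟩ := hh
      refine ⟨y, ?_⟩
      intro v₂ x₂ y₂ g1 g2 g3 g4 g5
      exact hQ v₂ v x x₂ x' y₂ y z g1 h1 g2 h2 g3 h3 g4 h4 g5 h5
    · refine ⟨x, ?_⟩
      intro v₂ x₂ y₂ g1 g2 g3 g4 g5
      exact absurd ⟨v₂, x₂, y₂, g1, g2, g3, g4, g5⟩ hh
  choose Y hY using h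
  exact ⟨Y, fun v x x' y z h1 h2 h3 h4 h5 => hY x z v x' y h1 h2 h3 h4 h5⟩

/-- **Main theorem**: a relation with (R), (Q) and their reversed forms has countable chromatic
number. -/
theorem countable_chi (c : Cardinal.{0}) : ∀ (V : Type) (_ : #V = c) (r : V → V → Prop)
    (_ : ∀ x, ¬ r x x) (_ : PR r) (_ : PR (fun x y => r y x)) (_ : PQ r)
    (_ : PQ (fun x y => r y x)), ∃ col : V → ℕ, ∀ x y, r x y → col x ≠ col y := by
  classical
  induction c using WellFoundedLT.induction with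
  | ind c ih =>
    intro V hV r hirr hR hR' hQ hQ'
    rcases le_or_gt #V ℵ₀ with hle | hgt
    · haveI : Countable V := Cardinal.mk_le_aleph0_iff.1 hle
      obtain ⟨f, hf⟩ := exists_injective_nat V
      refine ⟨f, ?_⟩
      intro x y hxy e
      have := hf e
      subst this
      exact hirr x hxy
    · obtain ⟨W₁, W₂, hW⟩ := exists_witR r
      obtain ⟨W₁', W₂', hW'⟩ := exists_witR (fun x y => r y x)
      obtain ⟨Y, hY⟩ := exists_witQ r hQ
      obtain ⟨Y', hY'⟩ := exists_witQ (fun x y => r y x) hQ'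
      let F : ℕ → V → V → V := fun n =>
        if n = 0 then W₁ else if n = 1 then W₂ else if n = 2 then Y else
        if n = 3 then W₁' else if n = 4 then W₂' else Y'
      obtain ⟨lam, hfib, hlam⟩ := exists_level F hgt
      have f0 : ∀ p q, lam (W₁ p q) ≤ max (lam p) (lam q) := fun p q => by
        simpa [F] using hlam 0 p q
      have f1 : ∀ p q, lam (W₂ p q) ≤ max (lam p) (lam q) := fun p q => by
        simpa [F] using hlam 1 p q
      have f2 : ∀ p q, lam (Y p q) ≤ max (lam p) (lam q) := fun p q => by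
        simpa [F] using hlam 2 p q
      have f3 : ∀ p q, lam (W₁' p q) ≤ max (lam p) (lam q) := fun p q => by
        simpa [F] using hlam 3 p q
      have f4 : ∀ p q, lam (W₂' p q) ≤ max (lam p) (lam q) := fun p q => by
        simpa [F] using hlam 4 p q
      have f5 : ∀ p q, lam (Y' p q) ≤ max (lam p) (lam q) := fun p q => by
        simpa [F] using hlam 5 p q
      have wR : WitR r lam := by
        intro v x x' w y h1 h2 h3 h4 h5
        obtain ⟨v₀, g1, g2, g3, g4, g5⟩ := hW v x x' w y h1 h2 h3 h4 h5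
        exact ⟨v₀, W₁ w y, W₂ w y, g1, g2, g3, g4, g5, f0 _ _, f1 _ _⟩
      have wR' : WitR (fun x y => r y x) lam := by
        intro v x x' w y h1 h2 h3 h4 h5
        obtain ⟨v₀, g1, g2, g3, g4, g5⟩ := hW' v x x' w y h1 h2 h3 h4 h5
        exact ⟨v₀, W₁' w y, W₂' w y, g1, g2, g3, g4, g5, f3 _ _, f4 _ _⟩
      have wQ : WitQ r lam := by
        intro v x x' y z h1 h2 h3 h4 h5
        rw [hY v x x' y z h1 h2 h3 h4 h5]
        exact f2 _ _
      have wQ' : WitQ (fun x y => r y x) lam := by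
        intro v x x' y z h1 h2 h3 h4 h5
        rw [hY' v x x' y z h1 h2 h3 h4 h5]
        exact f5 _ _
      obtain ⟨cu, hcu⟩ := up_colouring r lam hR wR wQ
      obtain ⟨cd, hcd⟩ := up_colouring (fun x y => r y x) lam hR' wR' wQ'
      have hs : ∀ a, ∃ col : {v // lam v = a} → ℕ, ∀ x y : {v // lam v = a}, r x.1 y.1 →
          col x ≠ col y := by
        intro a
        refine ih #{v // lam v = a} (by rw [← hV]; exact hfib a) {v // lam v = a} rfl
          (fun x y => r x.1 y.1) (fun x => hirr x.1) ?_ ?_ ?_ ?_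
        · exact hR.mono Subtype.val Subtype.val_injective _ (fun a b h => h)
        · exact hR'.mono Subtype.val Subtype.val_injective _ (fun a b h => h)
        · exact hQ.mono Subtype.val Subtype.val_injective _ (fun a b h => h)
        · exact hQ'.mono Subtype.val Subtype.val_injective _ (fun a b h => h)
      choose cs hcs using hs
      have hcast : ∀ (v : V) a (h : lam v = a), cs (lam v) ⟨v, rfl⟩ = cs a ⟨v, h⟩ := by
        intro v a h
        subst h
        rfl
      refine ⟨fun v => Nat.pair (cs (lam v) ⟨v, rfl⟩) (Nat.pair (cu v) (cd v)), ?_⟩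
      intro x y hxy e
      have e1 := (Nat.pair_eq_pair.1 e).1
      have e2 := Nat.pair_eq_pair.1 (Nat.pair_eq_pair.1 e).2
      rcases lt_trichotomy (lam x) (lam y) with hlt | heq | hlt
      · exact hcu x y hxy hlt e2.1
      · rw [hcast y (lam x) heq.symm] at e1
        exact hcs (lam x) ⟨x, rfl⟩ ⟨y, heq.symm⟩ hxy e1
      · exact hcd y x hxy hlt e2.2.symm

/-- The intersection of the two classes: countable chromatic number. -/
theorem countable_of_A1_A2 {V : Type} (G : SimpleGraph V) (h1 : A1 G) (h2 : A2 G) :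
    Nonempty (G.Coloring ℕ) := by
  classical
  obtain ⟨r, ⟨ho1, ho2⟩, hR, hR'⟩ := h1
  obtain ⟨s, ⟨hs1, hs2⟩, hQ, hQ'⟩ := h2
  obtain ⟨c₁, hc₁⟩ := countable_chi #V V rfl (fun x y => r x y ∧ s x y)
    (fun x h => ho1 x x h.1 h.1)
    (hR.mono id Function.injective_id _ (fun a b h => h.1))
    (hR'.mono id Function.injective_id _ (fun a b h => h.1))
    (hQ.mono id Function.injective_id _ (fun a b h => h.2))
    (hQ'.mono id Function.injective_id _ (fun a b h => h.2))
  obtain ⟨c₂, hc₂⟩ := countable_chi #V V rfl (fun x y => r x y ∧ s y x)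
    (fun x h => ho1 x x h.1 h.1)
    (hR.mono id Function.injective_id _ (fun a b h => h.1))
    (hR'.mono id Function.injective_id _ (fun a b h => h.1))
    (hQ'.mono id Function.injective_id _ (fun a b h => h.2))
    (hQ.mono id Function.injective_id _ (fun a b h => h.2))
  have key : ∀ x y, r x y → Nat.pair (c₁ x) (c₂ x) ≠ Nat.pair (c₁ y) (c₂ y) := by
    intro x y hxy e
    have e' := Nat.pair_eq_pair.1 e
    rcases (hs2 x y).1 ((ho2 x y).2 (Or.inl hxy)) with h | h
    · exact hc₁ x y ⟨hxy, h⟩ e'.1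
    · exact hc₂ x y ⟨hxy, h⟩ e'.2
  refine ⟨SimpleGraph.Coloring.mk (fun v => Nat.pair (c₁ v) (c₂ v)) ?_⟩
  intro x y hxy
  rcases (ho2 x y).1 hxy with h | h
  · exact key x y h
  · exact (key y x h).symm

end Pool.Agent.LibInt99
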