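import Mathlib
import Pool.Agent.LibInt99.Defs

set_option autoImplicit false

namespace Pool.Agent.LibInt99

universe u

/-- Abstract tree-like digraphs. -/
structure TreeLike {V : Type u} (r lt : V → V → Prop) : Prop where
  irrefl : ∀ x, ¬ lt x x
  trans : ∀ x y z, lt x y → lt y z → lt x z
  t1 : ∀ a b v, lt a v → lt b v → lt a b ∨ a = b ∨ lt b a
  t2 : ∀ x v, r x v → lt x v
  t3 : ∀ x v v', r x v → r x v' → ¬ lt v v'
  t4 : ∀ x x' v y, lt x x' → r x v → r x' v → r y x' → lt x y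

section Abs

variable {V : Type u} {r lt : V → V → Prop}

theorem TreeLike.t3' (h : TreeLike r lt) {x a b q : V} (h1 : r x a) (h2 : r x b) (ha : lt a q)
    (hb : lt b q) : a = b := by
  rcases h.t1 a b q ha hb with e | e | e
  · exact absurd e (h.t3 x a b h1 h2)
  · exact e
  · exact absurd e (h.t3 x b a h2 h1)

theorem TreeLike.asymm (h : TreeLike r lt) (x y : V) (h1 : r x y) : ¬ r y x := fun h2 =>
  h.irrefl x (h.trans x y x (h.t2 x y h1) (h.t2 y x h2))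

theorem TreeLike.unique (h : TreeLike r lt) (b c₁ c₂ q : V) (h1 : r b c₁) (h2 : r b c₂)
    (h3 : r c₁ q) (h4 : r c₂ q) : c₁ = c₂ :=
  h.t3' h1 h2 (h.t2 _ _ h3) (h.t2 _ _ h4)

theorem TreeLike.pr (h : TreeLike r lt) : PR r := by
  intro v₁ v₂ x₁ x₁' x₂ x₂' w y h1 h1' hn1 h2 h2' hn2 hw1 hw2 hy1 hy2
  have c1 : lt x₁ x₁' ∨ lt x₁' x₁ := by
    rcases h.t1 x₁ x₁' v₁ (h.t2 _ _ h1) (h.t2 _ _ h1') with e | e | e
    · exact Or.inl e
    · exact absurd e hn1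
    · exact Or.inr e
  have c2 : lt x₂ x₂' ∨ lt x₂' x₂ := by
    rcases h.t1 x₂ x₂' v₂ (h.t2 _ _ h2) (h.t2 _ _ h2') with e | e | e
    · exact Or.inl e
    · exact absurd e hn2
    · exact Or.inr e
  rcases c1 with c1 | c1 <;> rcases c2 with c2 | c2
  · left
    exact h.t3' hw1 hw2 (h.t4 _ _ _ _ c1 h1 h1' hy1) (h.t4 _ _ _ _ c2 h2 h2' hy2)
  · exfalso
    have e1 : lt x₁ y := h.t4 _ _ _ _ c1 h1 h1' hy1
    have e2 : lt x₂' w := h.t4 _ _ _ _ c2 h2' h2 hw2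
    exact h.irrefl _ (h.trans _ _ _ e1 (h.trans _ _ _ (h.t2 _ _ hy2)
      (h.trans _ _ _ e2 (h.t2 _ _ hw1))))
  · exfalso
    have e1 : lt x₁' w := h.t4 _ _ _ _ c1 h1' h1 hw1
    have e2 : lt x₂ y := h.t4 _ _ _ _ c2 h2 h2' hy2
    exact h.irrefl _ (h.trans _ _ _ e1 (h.trans _ _ _ (h.t2 _ _ hw2)
      (h.trans _ _ _ e2 (h.t2 _ _ hy1))))
  · right
    exact h.t3' hy1 hy2 (h.t4 _ _ _ _ c1 h1' h1 hw1) (h.t4 _ _ _ _ c2 h2' h2 hw2)

theorem TreeLike.pr_rev (h : TreeLike r lt) : PR (fun x y => r y x) := by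
  intro v₁ v₂ x₁ x₁' x₂ x₂' w y h1 h1' hn1 h2 h2' hn2 hw1 hw2 hy1 hy2
  left
  rcases h.t1 x₁ x₂ w (h.t2 _ _ hw1) (h.t2 _ _ hw2) with e | e | e
  · exfalso
    have e1 : lt x₁ v₂ := h.t4 _ _ _ _ e hw1 hw2 h2
    have e2 : lt x₁ y := h.trans _ _ _ e1 (h.trans _ _ _ (h.t2 _ _ h2') (h.t2 _ _ hy2))
    exact hn1 (h.t3' h1 h1' e2 (h.t2 _ _ hy1))
  · exact e
  · exfalso
    have e1 : lt x₂ v₁ := h.t4 _ _ _ _ e hw2 hw1 h1
    have e2 : lt x₂ y := h.trans _ _ _ e1 (h.trans _ _ _ (h.t2 _ _ h1') (h.t2 _ _ hy1))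
    exact hn2 (h.t3' h2 h2' e2 (h.t2 _ _ hy2))

end Abs

/-- Transfinite construction meeting `J`-many dense up-closed sets. -/
theorem genExt {J P : Type} (le : P → P → Prop) (hrefl : ∀ p, le p p)
    (htrans : ∀ p q s, le p q → le q s → le p s)
    (hub : ∀ (p : J → P) (A : Set J), A.Nonempty →
      (∀ i ∈ A, ∀ j ∈ A, le (p i) (p j) ∨ le (p j) (p i)) → ∃ q, ∀ i ∈ A, le (p i) q)
    (D : J → P → Prop) (hup : ∀ j p q, D j p → le p q → D j q) (p₀ : P)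
    (hdense : ∀ j p, le p₀ p → ∃ q, le p q ∧ D j q) :
    ∃ q, le p₀ q ∧ ∀ j, D j q := by
  classical
  let R : J → J → Prop := WellOrderingRel
  have wf : WellFounded R := WellOrderingRel.isWellOrder.wf
  have htri : ∀ i j, R i j ∨ i = j ∨ R j i := fun i j => trichotomous_of R i j
  let p : J → P := wf.fix (fun j rec =>
    if h : ∃ q, le p₀ q ∧ (∀ i (hi : R i j), le (rec i hi) q) ∧ D j q then h.choose else p₀)
  have hp : ∀ j, p j = if h : ∃ q, le p₀ q ∧ (∀ i (_ : R i j), le (p i) q) ∧ D j q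
      then h.choose else p₀ := fun j => wf.fix_eq _ j
  have hgood : ∀ j, le p₀ (p j) ∧ (∀ i (_ : R i j), le (p i) (p j)) ∧ D j (p j) := by
    intro j
    induction j using wf.induction with
    | _ j ih =>
      have hex : ∃ q, le p₀ q ∧ (∀ i (_ : R i j), le (p i) q) ∧ D j q := by
        by_cases hne : {i | R i j}.Nonempty
        · obtain ⟨q, hq⟩ := hub p {i | R i j} hne (by
            intro i hi k hk
            rcases htri i k with h | h | h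
            · exact Or.inl ((ih k hk).2.1 i h)
            · subst h
              exact Or.inl (hrefl _)
            · exact Or.inr ((ih i hi).2.1 k h))
          obtain ⟨i₀, hi₀⟩ := hne
          have h0 : le p₀ q := htrans _ _ _ (ih i₀ hi₀).1 (hq i₀ hi₀)
          obtain ⟨q', hq', hD⟩ := hdense j q h0
          exact ⟨q', htrans _ _ _ h0 hq', fun i hi => htrans _ _ _ (hq i hi) hq', hD⟩
        · obtain ⟨q', hq', hD⟩ := hdense j p₀ (hrefl _)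
          exact ⟨q', hq', fun i hi => absurd ⟨i, hi⟩ hne, hD⟩
      rw [hp j, dif_pos hex]
      exact hex.choose_spec
  by_cases hJ : (Set.univ : Set J).Nonempty
  · obtain ⟨q, hq⟩ := hub p Set.univ hJ (by
      intro i _ k _
      rcases htri i k with h | h | h
      · exact Or.inl ((hgood k).2.1 i h)
      · subst h
        exact Or.inl (hrefl _)
      · exact Or.inr ((hgood i).2.1 k h))
    obtain ⟨i₀, hi₀⟩ := hJ
    exact ⟨q, htrans _ _ _ (hgood i₀).1 (hq i₀ hi₀), fun j => hup j _ _ (hgood j).2.2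
      (hq j (Set.mem_univ _))⟩
  · exact ⟨p₀, hrefl _, fun j => absurd ⟨j, Set.mem_univ _⟩ hJ⟩

section Conc

variable {I : Type} [LinearOrder I]

/-- legal histories -/
structure Legal (g : I → Set I) : Prop where
  c0 : ∀ γ, ∀ δ ∈ g γ, δ < γ
  c1 : ∀ γ γ' α, α ∈ g γ → α ∈ g γ' → γ = γ'
  c2 : ∀ β, ∀ α ∈ g β, ∀ α' ∈ g β, α < α' → ∀ δ ∈ g α', α < δ

/-- vertices: a time and a legal history up to this time -/
@[ext] structure Vtx (I : Type) [LinearOrder I] where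
  b : I
  f : I → Set I
  leg : Legal f
  sup : ∀ γ, b < γ → f γ = ∅

/-- arcs -/
def arc (p q : Vtx I) : Prop := p.b ∈ q.f q.b ∧ ∀ γ, γ ≤ p.b → p.f γ = q.f γ

/-- tree order -/
def vlt (p q : Vtx I) : Prop := p.b < q.b ∧ ∀ γ, γ ≤ p.b → p.f γ = q.f γ

theorem treeLike : TreeLike (arc (I := I)) vlt where
  irrefl := fun x h => lt_irrefl _ h.1
  trans := fun x y z h1 h2 => ⟨h1.1.trans h2.1, fun γ hγ =>
    (h1.2 γ hγ).trans (h2.2 γ (hγ.trans h1.1.le))⟩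
  t1 := by
    intro a b v ha hb
    rcases lt_trichotomy a.b b.b with h | h | h
    · left
      exact ⟨h, fun γ hγ => (ha.2 γ hγ).trans (hb.2 γ (hγ.trans h.le)).symm⟩
    · right; left
      apply Vtx.ext h
      funext γ
      rcases le_or_gt γ a.b with hγ | hγ
      · exact (ha.2 γ hγ).trans (hb.2 γ (hγ.trans h.le)).symm
      · rw [a.sup γ hγ, b.sup γ (h ▸ hγ)]
    · right; right
      exact ⟨h, fun γ hγ => (hb.2 γ hγ).trans (ha.2 γ (hγ.trans h.le)).symm⟩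
  t2 := fun x v h => ⟨v.leg.c0 _ _ h.1, h.2⟩
  t3 := by
    intro x v v' h1 h2 h3
    have e1 : x.b ∈ v'.f v.b := by
      rw [← h3.2 v.b le_rfl]
      exact h1.1
    exact absurd (v'.leg.c1 _ _ _ e1 h2.1) (ne_of_lt h3.1)
  t4 := by
    intro x x' v y hxx' hx hx' hy
    have e1 : y.b ∈ v.f x'.b := by
      rw [← hx'.2 x'.b le_rfl]
      exact hy.1
    have e2 : x.b < y.b := v.leg.c2 v.b x.b hx.1 x'.b hx'.1 hxx'.1 y.b e1
    have e3 : y.b < x'.b := x'.leg.c0 _ _ hy.1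
    exact ⟨e2, fun γ hγ => by
      rw [hx.2 γ hγ, hy.2 γ (hγ.trans e2.le), hx'.2 γ (hγ.trans (e2.trans e3).le)]⟩

/-- states -/
structure St (I : Type) [LinearOrder I] where
  b : I
  f : I → Set I
  leg : Legal f
  sup : ∀ γ, b ≤ γ → f γ = ∅

/-- fresh extension -/
def St.le (s t : St I) : Prop :=
  s.b ≤ t.b ∧ (∀ γ, γ < s.b → t.f γ = s.f γ) ∧ ∀ γ, s.b ≤ γ → ∀ δ ∈ t.f γ, s.b ≤ δ

/-- a vertex fresh over a state -/
def Fresh (p : Vtx I) (s : St I) : Prop :=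
  s.b ≤ p.b ∧ (∀ γ, γ < s.b → p.f γ = s.f γ) ∧ ∀ γ, s.b ≤ γ → ∀ δ ∈ p.f γ, s.b ≤ δ

theorem St.le_refl (s : St I) : s.le s :=
  ⟨_root_.le_refl _, fun _ _ => rfl, fun γ hγ δ hδ => by rw [s.sup γ hγ] at hδ; exact hδ.elim⟩

theorem St.le_trans (s t w : St I) (h1 : s.le t) (h2 : t.le w) : s.le w := by
  refine ⟨h1.1.trans h2.1, fun γ hγ => ?_, fun γ hγ δ hδ => ?_⟩
  · rw [h2.2.1 γ (lt_of_lt_of_le hγ h1.1), h1.2.1 γ hγ]
  · rcases lt_or_ge γ t.b with h | h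
    · rw [h2.2.1 γ h] at hδ
      exact h1.2.2 γ hγ δ hδ
    · exact h1.1.trans (h2.2.2 γ h δ hδ)

theorem Fresh.mono {p : Vtx I} {s t : St I} (h1 : s.le t) (h2 : Fresh p t) : Fresh p s := by
  refine ⟨h1.1.trans h2.1, fun γ hγ => ?_, fun γ hγ δ hδ => ?_⟩
  · rw [h2.2.1 γ (lt_of_lt_of_le hγ h1.1), h1.2.1 γ hγ]
  · rcases lt_or_ge γ t.b with h | h
    · rw [h2.2.1 γ h] at hδ
      exact h1.2.2 γ hγ δ hδ
    · exact h1.1.trans (h2.2.2 γ h δ hδ)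

theorem St.le_sub {s t : St I} (h : s.le t) (γ δ : I) (hδ : δ ∈ s.f γ) : δ ∈ t.f γ := by
  rcases lt_or_ge γ s.b with h1 | h1
  · rw [h.2.1 γ h1]; exact hδ
  · rw [s.sup γ h1] at hδ; exact hδ.elim

/-- union of a chain of states -/
theorem St.exists_ub {J : Type} (hI : ∀ f : J → I, ∃ b, ∀ j, f j < b) (p : J → St I) (A : Set J)
    (_ : A.Nonempty) (hch : ∀ i ∈ A, ∀ j ∈ A, (p i).le (p j) ∨ (p j).le (p i)) :
    ∃ q : St I, (∀ i ∈ A, (p i).le q) ∧ (∀ i, (p i).b < q.b) ∧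
      ∀ γ δ, δ ∈ q.f γ → ∃ j ∈ A, δ ∈ (p j).f γ := by
  obtain ⟨b, hb⟩ := hI (fun j => (p j).b)
  have hdom : ∀ i ∈ A, ∀ j ∈ A, ∃ k ∈ A, (∀ γ, ∀ δ ∈ (p i).f γ, δ ∈ (p k).f γ) ∧
      (∀ γ, ∀ δ ∈ (p j).f γ, δ ∈ (p k).f γ) := by
    intro i hi j hj
    rcases hch i hi j hj with h | h
    · exact ⟨j, hj, fun γ δ hδ => St.le_sub h γ δ hδ, fun γ δ hδ => hδ⟩
    · exact ⟨i, hi, fun γ δ hδ => hδ, fun γ δ hδ => St.le_sub h γ δ hδ⟩
  have hlt : ∀ j γ δ, δ ∈ (p j).f γ → γ < (p j).b := by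
    intro j γ δ hδ
    by_contra hcon
    rw [(p j).sup γ (not_lt.1 hcon)] at hδ
    exact hδ
  refine ⟨⟨b, fun γ => {δ | ∃ j ∈ A, δ ∈ (p j).f γ}, ⟨?_, ?_, ?_⟩, ?_⟩, ?_, hb, ?_⟩
  · rintro γ δ ⟨j, hj, hδ⟩
    exact (p j).leg.c0 γ δ hδ
  · rintro γ γ' α ⟨i, hi, h1⟩ ⟨j, hj, h2⟩
    obtain ⟨k, hk, k1, k2⟩ := hdom i hi j hj
    exact (p k).leg.c1 γ γ' α (k1 _ _ h1) (k2 _ _ h2)
  · rintro β α ⟨i, hi, h1⟩ α' ⟨j, hj, h2⟩ hαα' δ ⟨l, hl, h3⟩
    obtain ⟨k, hk, k1, k2⟩ := hdom i hi j hj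
    obtain ⟨m, hm, m1, m2⟩ := hdom k hk l hl
    exact (p m).leg.c2 β α (m1 _ _ (k1 _ _ h1)) α' (m1 _ _ (k2 _ _ h2)) hαα' δ (m2 _ _ h3)
  · intro γ hγ
    ext δ
    simp only [Set.mem_ofPred_eq, Set.mem_empty_iff_false, iff_false, not_exists, not_and]
    intro j _ hδ
    exact absurd ((hlt j γ δ hδ).trans (hb j)) (not_lt.2 hγ)
  · intro i hi
    refine ⟨(hb i).le, ?_, ?_⟩
    · intro γ hγ
      ext δ
      constructor
      · rintro ⟨j, hj, hδ⟩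
        rcases hch i hi j hj with h | h
        · rw [← h.2.1 γ hγ]; exact hδ
        · exact St.le_sub h γ δ hδ
      · intro hδ
        exact ⟨i, hi, hδ⟩
    · rintro γ hγ δ ⟨j, hj, hδ⟩
      rcases hch i hi j hj with h | h
      · exact h.2.2 γ hγ δ hδ
      · exact absurd (lt_of_lt_of_le (hlt j γ δ hδ) h.1) (not_lt.2 hγ)
  · rintro γ δ ⟨j, hj, hδ⟩
    exact ⟨j, hj, hδ⟩

/-- Truncated histories. -/
def tr (f : I → Set I) (a : I) : I → Set I := fun γ => {δ | γ ≤ a ∧ δ ∈ f γ}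

theorem Legal.tr {f : I → Set I} (h : Legal f) (a : I) : Legal (LibInt99.tr f a) where
  c0 := fun γ δ hδ => h.c0 γ δ hδ.2
  c1 := fun γ γ' α h1 h2 => h.c1 γ γ' α h1.2 h2.2
  c2 := fun β α h1 α' h2 hlt δ hδ => h.c2 β α h1.2 α' h2.2 hlt δ hδ.2

/-- the vertex at time `a` of a history -/
def mkV (f : I → Set I) (h : Legal f) (a : I) : Vtx I :=
  ⟨a, tr f a, h.tr a, fun γ hγ => by
    ext δ
    simp only [tr, Set.mem_ofPred_eq, Set.mem_empty_iff_false, iff_false, not_and]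
    intro h1
    exact absurd hγ (not_lt.2 h1)⟩

theorem mkV_congr (f g : I → Set I) (hf : Legal f) (hg : Legal g) (a : I)
    (h : ∀ γ, γ ≤ a → f γ = g γ) : mkV f hf a = mkV g hg a := by
  refine Vtx.ext (show a = a from rfl) ?_
  funext γ
  ext δ
  simp only [mkV, tr, Set.mem_ofPred_eq]
  constructor
  · rintro ⟨h1, h2⟩
    exact ⟨h1, by rw [← h γ h1]; exact h2⟩
  · rintro ⟨h1, h2⟩
    exact ⟨h1, by rw [h γ h1]; exact h2⟩

theorem mkV_self (p : Vtx I) : mkV p.f p.leg p.b = p := by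
  refine Vtx.ext (show p.b = p.b from rfl) ?_
  funext γ
  ext δ
  simp only [mkV, tr, Set.mem_ofPred_eq]
  constructor
  · exact fun h => h.2
  · intro h
    refine ⟨?_, h⟩
    by_contra hcon
    rw [p.sup γ (not_le.1 hcon)] at h
    exact h

/-- marked states over `K` -/
structure MSt (K : St I) where
  s : St I
  M : Set I
  hK : K.le s
  m0 : ∀ α ∈ M, K.b ≤ α
  m1 : ∀ α ∈ M, α < s.b
  m2 : ∀ α ∈ M, ∀ γ, α ∉ s.f γ
  m3 : ∀ α ∈ M, ∀ α' ∈ M, α < α' → ∀ δ ∈ s.f α', α < δ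

/-- order of marked states -/
def MSt.le {K : St I} (m n : MSt K) : Prop := m.s.le n.s ∧ m.M ⊆ n.M

theorem MSt.exists_ub {J : Type} (hI : ∀ f : J → I, ∃ b, ∀ j, f j < b) {K : St I}
    (p : J → MSt K) (A : Set J) (hA : A.Nonempty)
    (hch : ∀ i ∈ A, ∀ j ∈ A, (p i).le (p j) ∨ (p j).le (p i)) :
    ∃ q : MSt K, ∀ i ∈ A, (p i).le q := by
  obtain ⟨q, hq1, hq2, hq3⟩ := St.exists_ub hI (fun j => (p j).s) A hA (by
    intro i hi j hj
    rcases hch i hi j hj with h | h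
    · exact Or.inl h.1
    · exact Or.inr h.1)
  have hdom : ∀ i ∈ A, ∀ j ∈ A, ∃ k ∈ A, (p i).le (p k) ∧ (p j).le (p k) := by
    intro i hi j hj
    rcases hch i hi j hj with h | h
    · exact ⟨j, hj, h, ⟨St.le_refl _, fun _ h => h⟩⟩
    · exact ⟨i, hi, ⟨St.le_refl _, fun _ h => h⟩, h⟩
  refine ⟨⟨q, {α | ∃ i ∈ A, α ∈ (p i).M}, ?_, ?_, ?_, ?_, ?_⟩, ?_⟩
  · obtain ⟨i, hi⟩ := hA
    exact St.le_trans _ _ _ (p i).hK (hq1 i hi)
  · rintro α ⟨i, hi, h⟩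
    exact (p i).m0 α h
  · rintro α ⟨i, hi, h⟩
    exact ((p i).m1 α h).trans (hq2 i)
  · rintro α ⟨i, hi, h⟩ γ hγ
    obtain ⟨j, hj, hj'⟩ := hq3 γ α hγ
    obtain ⟨k, hk, k1, k2⟩ := hdom i hi j hj
    exact (p k).m2 α (k1.2 h) γ (St.le_sub k2.1 γ α hj')
  · rintro α ⟨i, hi, h⟩ α' ⟨j, hj, h'⟩ hlt δ hδ
    obtain ⟨l, hl, hl'⟩ := hq3 α' δ hδ
    obtain ⟨k, hk, k1, k2⟩ := hdom i hi j hj
    obtain ⟨m, hm, m1, m2⟩ := hdom k hk l hl
    exact (p m).m3 α (m1.2 (k1.2 h)) α' (m1.2 (k2.2 h')) hlt δ (St.le_sub m2.1 α' δ hl')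
  · intro i hi
    exact ⟨hq1 i hi, fun α h => ⟨i, hi, h⟩⟩

/-- **Large chromatic number.** -/
theorem exists_mono {J : Type} [Nonempty I] (hI : ∀ f : J → I, ∃ b, ∀ j, f j < b)
    (c : Vtx I → J) : ∃ p q, arc p q ∧ c p = c q := by
  classical
  obtain ⟨i₀⟩ := (inferInstance : Nonempty I)
  have hempty : Legal (fun _ : I => (∅ : Set I)) :=
    ⟨fun _ _ h => h.elim, fun _ _ _ h => h.elim, fun _ _ h => h.elim⟩
  -- availability
  let Av : J → St I → Prop := fun ξ s => ∃ p : Vtx I, Fresh p s ∧ c p = ξ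
  have hAv : ∀ ξ s t, St.le s t → Av ξ t → Av ξ s := by
    rintro ξ s t hst ⟨p, hp, hc⟩
    exact ⟨p, hp.mono hst, hc⟩
  -- step (i)
  obtain ⟨K, -, hK⟩ := genExt (J := J) (P := St I) St.le St.le_refl St.le_trans
    (fun p A hA hch => by
      obtain ⟨q, hq, _⟩ := St.exists_ub hI p A hA hch
      exact ⟨q, hq⟩)
    (fun ξ s => ¬ Av ξ s ∨ ∀ t, St.le s t → Av ξ t)
    (by
      rintro ξ s t (h | h) hst
      · exact Or.inl (fun h' => h (hAv ξ s t hst h'))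
      · exact Or.inr (fun w hw => h w (St.le_trans _ _ _ hst hw)))
    ⟨i₀, fun _ => ∅, hempty, fun _ _ => rfl⟩
    (by
      intro ξ s _
      by_cases h : ∃ t, St.le s t ∧ ¬ Av ξ t
      · obtain ⟨t, ht, ht'⟩ := h
        exact ⟨t, ht, Or.inl ht'⟩
      · push Not at h
        exact ⟨s, St.le_refl s, Or.inr h⟩)
  -- step (ii)
  obtain ⟨m, -, hm⟩ := genExt (J := J) (P := MSt K) MSt.le
    (fun m => ⟨St.le_refl _, fun _ h => h⟩)
    (fun m n l h1 h2 => ⟨St.le_trans _ _ _ h1.1 h2.1, h1.2.trans h2.2⟩)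
    (fun p A hA hch => MSt.exists_ub hI p A hA hch)
    (fun ξ m => (∀ t, St.le K t → Av ξ t) → ∃ α ∈ m.M, c (mkV m.s.f m.s.leg α) = ξ)
    (by
      intro ξ m n h hmn hal
      obtain ⟨α, hα, hc⟩ := h hal
      refine ⟨α, hmn.2 hα, ?_⟩
      rw [← hc]
      congr 1
      apply mkV_congr
      intro γ hγ
      exact hmn.1.2.1 γ (lt_of_le_of_lt hγ (m.m1 α hα)))
    ⟨K, ∅, St.le_refl K, fun _ h => h.elim, fun _ h => h.elim, fun _ h => h.elim,
      fun _ h => h.elim⟩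
    (by
      intro ξ m _
      by_cases hal : ∀ t, St.le K t → Av ξ t
      swap
      · exact ⟨m, ⟨St.le_refl _, fun _ h => h⟩, fun h => absurd h hal⟩
      obtain ⟨p, hp, hc⟩ := hal m.s m.hK
      obtain ⟨b', hb'⟩ := hI (fun _ => p.b)
      have hb : p.b < b' := hb' ξ
      let s' : St I := ⟨b', p.f, p.leg, fun γ hγ => p.sup γ (lt_of_lt_of_le hb hγ)⟩
      have hs' : m.s.le s' := ⟨hp.1.trans hb.le, hp.2.1, hp.2.2⟩
      have hpb : ∀ γ, p.b ∉ p.f γ := by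
        intro γ hγ
        have h1 := p.leg.c0 γ _ hγ
        rw [p.sup γ h1] at hγ
        exact hγ
      refine ⟨⟨s', insert p.b m.M, St.le_trans _ _ _ m.hK hs', ?_, ?_, ?_, ?_⟩,
        ⟨hs', Set.subset_insert _ _⟩, fun _ => ⟨p.b, Set.mem_insert _ _, ?_⟩⟩
      · rintro α (rfl | hα)
        · exact m.hK.1.trans hp.1
        · exact m.m0 α hα
      · rintro α (rfl | hα)
        · exact hb
        · exact lt_of_lt_of_le (m.m1 α hα) hs'.1
      · rintro α (rfl | hα) γ hγ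
        · exact hpb γ hγ
        · rcases lt_or_ge γ m.s.b with h | h
          · change α ∈ p.f γ at hγ
            rw [hp.2.1 γ h] at hγ
            exact m.m2 α hα γ hγ
          · exact absurd (hp.2.2 γ h α hγ) (not_le.2 (m.m1 α hα))
      · rintro α (rfl | hα) α' (rfl | hα') hlt δ hδ
        · exact absurd hlt (lt_irrefl _)
        · exact absurd (hlt.trans (m.m1 α' hα')) (not_lt.2 hp.1)
        · exact lt_of_lt_of_le (m.m1 α hα) (hp.2.2 _ hp.1 δ hδ)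
        · change δ ∈ p.f α' at hδ
          rw [hp.2.1 α' (m.m1 α' hα')] at hδ
          exact m.m3 α hα α' hα' hlt δ hδ
      · change c (mkV p.f p.leg p.b) = ξ
        rw [mkV_self, hc])
  -- step (iii)
  have hfs : ∀ γ δ, δ ∈ m.s.f γ → γ < m.s.b := by
    intro γ δ hδ
    by_contra hcon
    rw [m.s.sup γ (not_lt.1 hcon)] at hδ
    exact hδ
  let g : I → Set I := fun γ => {δ | δ ∈ m.s.f γ ∨ (γ = m.s.b ∧ δ ∈ m.M)}
  have hg : ∀ γ, γ < m.s.b → g γ = m.s.f γ := by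
    intro γ hγ
    ext δ
    constructor
    · rintro (h | h)
      · exact h
      · exact absurd h.1 (ne_of_lt hγ)
    · exact fun h => Or.inl h
  have hleg : Legal g := by
    refine ⟨?_, ?_, ?_⟩
    · rintro γ δ (h | h)
      · exact m.s.leg.c0 γ δ h
      · rw [h.1]
        exact m.m1 δ h.2
    · rintro γ γ' α (h | h) (h' | h')
      · exact m.s.leg.c1 γ γ' α h h'
      · exact absurd h (m.m2 α h'.2 γ)
      · exact absurd h' (m.m2 α h.2 γ')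
      · rw [h.1, h'.1]
    · rintro β α (h | h) α' (h' | h') hlt δ hδ
      · have hβ : β < m.s.b := hfs β α h
        have hα' : α' < m.s.b := (m.s.leg.c0 β α' h').trans hβ
        rw [hg α' hα'] at hδ
        exact m.s.leg.c2 β α h α' h' hlt δ hδ
      · exact absurd h'.1 (ne_of_lt (hfs β α h))
      · exact absurd h.1 (ne_of_lt (hfs β α' h'))
      · rw [hg α' (m.m1 α' h'.2)] at hδ
        exact m.m3 α h.2 α' h'.2 hlt δ hδ
  let v : Vtx I := ⟨m.s.b, g, hleg, by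
    intro γ hγ
    ext δ
    simp only [Set.mem_empty_iff_false, iff_false]
    rintro (h | h)
    · exact absurd (hfs γ δ h) (not_lt.2 hγ.le)
    · exact absurd h.1.symm (ne_of_lt hγ)⟩
  have hv : Fresh v K := by
    refine ⟨m.hK.1, ?_, ?_⟩
    · intro γ hγ
      change g γ = _
      rw [hg γ (lt_of_lt_of_le hγ m.hK.1)]
      exact m.hK.2.1 γ hγ
    · rintro γ hγ δ (h | h)
      · exact m.hK.2.2 γ hγ δ h
      · exact m.m0 δ h.2
  have hal : ∀ t, St.le K t → Av (c v) t := by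
    rcases hK (c v) with h | h
    · exact absurd ⟨v, hv, rfl⟩ h
    · exact h
  obtain ⟨α, hα, hc⟩ := hm (c v) hal
  refine ⟨mkV m.s.f m.s.leg α, v, ⟨?_, ?_⟩, hc⟩
  · exact Or.inr ⟨rfl, hα⟩
  · intro γ hγ
    change tr m.s.f α γ = g γ
    have hγ' : γ ≤ α := hγ
    rw [hg γ (lt_of_le_of_lt hγ' (m.m1 α hα))]
    ext δ
    exact ⟨fun h => h.2, fun h => ⟨hγ', h⟩⟩

end Conc

end Pool.Agent.LibInt99
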