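import Mathlib
import Pool.Agent.LibInt99.Tree

set_option autoImplicit false

open Cardinal

namespace Pool.Agent.LibInt99

universe u

section Gen

variable {V : Type u} (r : V → V → Prop)

/-- arcs of a digraph -/
def Arcs : Type u := {e : V × V // r e.1 e.2}

/-- the line digraph -/
def lr (e e' : Arcs r) : Prop := e.1.2 = e'.1.1

theorem lr_pq (hU : ∀ b c₁ c₂ q, r b c₁ → r b c₂ → r c₁ q → r c₂ q → c₁ = c₂) : PQ (lr r) := by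
  rintro ⟨⟨v1a, v1b⟩, hv1⟩ ⟨⟨v2a, v2b⟩, hv2⟩ ⟨⟨xa, xb⟩, hx⟩ ⟨⟨p1a, p1b⟩, hp1⟩ ⟨⟨p2a, p2b⟩, hp2⟩
    ⟨⟨y1a, y1b⟩, hy1⟩ ⟨⟨y2a, y2b⟩, hy2⟩ ⟨⟨za, zb⟩, hz⟩ h1 h2 h3 h4 _ _ h7 h8 h9 h10
  simp only [lr] at *
  subst h9
  subst h7
  subst h8
  subst h3
  subst h4
  subst h1
  subst h2
  subst h10
  have := hU zb y1b y2b xb hy1 hy2 hp1 hp2
  subst this
  rfl

theorem lr_pq_rev (hU : ∀ b c₁ c₂ q, r b c₁ → r b c₂ → r c₁ q → r c₂ q → c₁ = c₂) :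
    PQ (fun e e' => lr r e' e) := by
  rintro ⟨⟨v1a, v1b⟩, hv1⟩ ⟨⟨v2a, v2b⟩, hv2⟩ ⟨⟨xa, xb⟩, hx⟩ ⟨⟨p1a, p1b⟩, hp1⟩ ⟨⟨p2a, p2b⟩, hp2⟩
    ⟨⟨y1a, y1b⟩, hy1⟩ ⟨⟨y2a, y2b⟩, hy2⟩ ⟨⟨za, zb⟩, hz⟩ h1 h2 h3 h4 _ _ h7 h8 h9 h10
  simp only [lr] at *
  subst h9
  subst h7
  subst h8
  subst h3
  subst h4
  subst h1
  subst h2
  subst h10
  have := hU _ _ _ _ hp1 hp2 hy1 hy2
  subst this
  rfl

/-- the symmetric closure -/
def symG (has : ∀ x y, r x y → ¬ r y x) : SimpleGraph V where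
  Adj x y := r x y ∨ r y x
  symm := ⟨fun _ _ h => h.symm⟩
  loopless := ⟨fun x h => by
    rcases h with h | h
    · exact has x x h h
    · exact has x x h h⟩

theorem symG_ori (has : ∀ x y, r x y → ¬ r y x) : Ori (symG r has) r :=
  ⟨has, fun _ _ => Iff.rfl⟩

theorem lr_asymm (has : ∀ x y, r x y → ¬ r y x) : ∀ x y, lr r x y → ¬ lr r y x := by
  rintro ⟨⟨a, b⟩, h1⟩ ⟨⟨c, d⟩, h2⟩ h3 h4
  simp only [lr] at *
  subst h3
  subst h4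
  exact has _ _ h1 h2

/-- chromatic number of line digraphs -/
theorem line_mono {J : Type u} (h : ∀ C : V → Set J, ∃ p q, r p q ∧ C p = C q)
    (c : Arcs r → J) : ∃ e e', lr r e e' ∧ c e = c e' := by
  obtain ⟨p, q, hpq, hC⟩ := h (fun b => {j | ∃ e : Arcs r, e.1.2 = b ∧ c e = j})
  have h1 : c ⟨(p, q), hpq⟩ ∈ {j | ∃ e : Arcs r, e.1.2 = q ∧ c e = j} := ⟨_, rfl, rfl⟩
  rw [← hC] at h1
  obtain ⟨e, he, hc⟩ := h1
  exact ⟨e, ⟨(p, q), hpq⟩, he, hc⟩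

end Gen

/-- a well-ordered set in which all small families are bounded -/
theorem exists_index (ν : Cardinal.{0}) (hν : ℵ₀ ≤ ν) : ∃ (I : Type) (_ : LinearOrder I),
    Nonempty I ∧ ∀ (J : Type), #J ≤ ν → ∀ f : J → I, ∃ b, ∀ j, f j < b := by
  refine ⟨(Order.succ ν).ord.ToType, inferInstance, ?_, ?_⟩
  · rw [← Cardinal.mk_ne_zero_iff, Cardinal.mk_ord_toType]
    exact (lt_of_le_of_lt (zero_le) (Order.lt_succ ν)).ne'
  · intro J hJ f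
    by_contra hcon
    push Not at hcon
    have h1 : IsCofinal (Set.range f) := by
      intro a
      obtain ⟨j, hj⟩ := hcon a
      exact ⟨f j, ⟨j, rfl⟩, hj⟩
    have h2 := Order.cof_le h1
    rw [Ordinal.cof_toType, (Cardinal.isRegular_succ hν).cof_ord] at h2
    have h3 : #(Set.range f) ≤ ν := Cardinal.mk_range_le.trans hJ
    exact absurd (h2.trans h3) (not_le.2 (Order.lt_succ ν))

/-- Graphs in `A1` of large chromatic number. -/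
theorem exists_A1 (κ : Cardinal.{0}) (hκ : ℵ₀ ≤ κ) :
    ∃ (V : Type) (G : SimpleGraph V), A1 G ∧ ∀ β : Type, #β ≤ κ → IsEmpty (G.Coloring β) := by
  obtain ⟨I, hI, hne, hb⟩ := exists_index κ hκ
  refine ⟨Vtx I, symG arc treeLike.asymm, ⟨arc, symG_ori _ _, treeLike.pr, treeLike.pr_rev⟩, ?_⟩
  intro β hβ
  constructor
  intro c
  obtain ⟨p, q, hpq, hc⟩ := exists_mono (hb β hβ) c
  exact c.valid (Or.inl hpq) hc

/-- Graphs in `A2` of large chromatic number. -/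
theorem exists_A2 (κ : Cardinal.{0}) (hκ : ℵ₀ ≤ κ) :
    ∃ (V : Type) (G : SimpleGraph V), A2 G ∧ ∀ β : Type, #β ≤ κ → IsEmpty (G.Coloring β) := by
  obtain ⟨I, hI, hne, hb⟩ := exists_index (2 ^ κ) (hκ.trans (Cardinal.cantor κ).le)
  have hU : ∀ b c₁ c₂ q : Vtx I, arc b c₁ → arc b c₂ → arc c₁ q → arc c₂ q → c₁ = c₂ :=
    fun b c₁ c₂ q h1 h2 h3 h4 => treeLike.unique b c₁ c₂ q h1 h2 h3 h4
  refine ⟨Arcs (arc (I := I)), symG (lr arc) (lr_asymm arc treeLike.asymm),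
    ⟨lr arc, symG_ori _ _, lr_pq arc hU, lr_pq_rev arc hU⟩, ?_⟩
  intro β hβ
  constructor
  intro c
  obtain ⟨p, q, hpq, hc⟩ := line_mono arc (J := β) (fun C => exists_mono (hb (Set β) (by
    rw [Cardinal.mk_set]
    exact Cardinal.power_le_power_left two_ne_zero hβ)) C) c
  exact c.valid (Or.inl hpq) hc

end Pool.Agent.LibInt99
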